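import Pool.Agent.Helper94_Simp.Ave

/-!
# Module ALGF: the class of the vertex does not vanish
-/

set_option autoImplicit false
set_option linter.unusedSectionVars false

namespace Pool.Agent.Helper30_Simp.H94

open MvPolynomial Finset
open scoped Classical

/-! ### Polynomials without terms of low degree -/

section hi

variable {W : Type} [Fintype W]

/-- no terms of degree less than `n` -/
def Hi (n : ℕ) (f : MvPolynomial W ℂ) : Prop := ∀ α : W →₀ ℕ, α.degree < n → f.coeff α = 0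

theorem Hi.mono {m n : ℕ} (h : m ≤ n) {f : MvPolynomial W ℂ} (hf : Hi n f) : Hi m f :=
  fun α hα => hf α (hα.trans_le h)

theorem Hi.add {n : ℕ} {f g : MvPolynomial W ℂ} (hf : Hi n f) (hg : Hi n g) : Hi n (f + g) :=
  fun α hα => by rw [coeff_add, hf α hα, hg α hα, add_zero]

theorem Hi.sub {n : ℕ} {f g : MvPolynomial W ℂ} (hf : Hi n f) (hg : Hi n g) : Hi n (f - g) :=
  fun α hα => by rw [coeff_sub, hf α hα, hg α hα, sub_zero]

theorem Hi.neg {n : ℕ} {f : MvPolynomial W ℂ} (hf : Hi n f) : Hi n (-f) :=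
  fun α hα => by rw [coeff_neg, hf α hα, neg_zero]

theorem Hi.zero' (f : MvPolynomial W ℂ) : Hi 0 f := fun _ hα => absurd hα (Nat.not_lt_zero _)

theorem Hi.zero (n : ℕ) : Hi n (0 : MvPolynomial W ℂ) := fun α _ => coeff_zero α

theorem Hi.mul {m n : ℕ} {f g : MvPolynomial W ℂ} (hf : Hi m f) (hg : Hi n g) :
    Hi (m + n) (f * g) := by
  intro α hα
  rw [coeff_mul]
  refine Finset.sum_eq_zero fun x hx => ?_
  have h1 : x.1 + x.2 = α := Finset.HasAntidiagonal.mem_antidiagonal.1 hx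
  have h2 : x.1.degree + x.2.degree = α.degree := by rw [← map_add, h1]
  by_cases h3 : x.1.degree < m
  · rw [hf _ h3, zero_mul]
  · rw [hg _ (by omega), mul_zero]

theorem Hi.of_hom {n : ℕ} {f : MvPolynomial W ℂ} (hf : f.IsHomogeneous n) : Hi n f :=
  fun α hα => hf.coeff_eq_zero (by omega)

theorem Hi.prod {ι : Type} (s : Finset ι) (f : ι → MvPolynomial W ℂ) (h : ∀ i ∈ s, Hi 1 (f i)) :
    Hi s.card (∏ i ∈ s, f i) := by
  induction s using Finset.induction_on with
  | empty => exact Hi.zero' _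
  | insert a s ha ih =>
    rw [Finset.prod_insert ha, Finset.card_insert_of_notMem ha, add_comm]
    exact (h a (mem_insert_self a s)).mul (ih fun i hi => h i (mem_insert_of_mem hi))

theorem Hi.prod_sub {ι : Type} (s : Finset ι) (q l : ι → MvPolynomial W ℂ)
    (hl : ∀ i ∈ s, Hi 1 (l i)) (h : ∀ i ∈ s, Hi 2 (q i - l i)) :
    Hi (s.card + 1) (∏ i ∈ s, q i - ∏ i ∈ s, l i) := by
  have hq : ∀ i ∈ s, Hi 1 (q i) := fun i hi => by
    have := ((h i hi).mono (by norm_num : 1 ≤ 2)).add (hl i hi)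
    rwa [sub_add_cancel] at this
  induction s using Finset.induction_on with
  | empty => simpa using Hi.zero 1
  | insert a s ha ih =>
    rw [Finset.prod_insert ha, Finset.prod_insert ha, Finset.card_insert_of_notMem ha]
    have e : q a * ∏ i ∈ s, q i - l a * ∏ i ∈ s, l i
        = (q a - l a) * ∏ i ∈ s, q i + l a * (∏ i ∈ s, q i - ∏ i ∈ s, l i) := by ring
    rw [e]
    refine Hi.add ?_ ?_
    · refine ((h a (mem_insert_self a s)).mul (Hi.prod s q fun i hi =>
        hq i (mem_insert_of_mem hi))).mono ?_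
      omega
    · refine ((hl a (mem_insert_self a s)).mul (ih (fun i hi => hl i (mem_insert_of_mem hi))
        (fun i hi => h i (mem_insert_of_mem hi)) fun i hi => hq i (mem_insert_of_mem hi))).mono ?_
      omega

theorem Hi.X (ρ : W) : Hi 1 (X ρ : MvPolynomial W ℂ) := Hi.of_hom (isHomogeneous_X ℂ ρ)

/-- the product of powers of `1 + X ρ` -/
noncomputable def mon (a : W → ℕ) : MvPolynomial W ℂ := ∏ ρ, (1 + X ρ) ^ a ρ

theorem hi_pow (ρ : W) (n : ℕ) : Hi 2 ((1 + X ρ) ^ n - 1 - (n : MvPolynomial W ℂ) * X ρ) := by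
  induction n with
  | zero => simpa using Hi.zero 2
  | succ n ih =>
    have e : (1 + X ρ) ^ (n + 1) - 1 - ((n + 1 : ℕ) : MvPolynomial W ℂ) * X ρ
        = ((1 + X ρ) ^ n - 1 - (n : MvPolynomial W ℂ) * X ρ) * (1 + X ρ)
          + (X ρ * X ρ) * (n : MvPolynomial W ℂ) := by
      push_cast
      ring
    rw [e]
    exact (ih.mul (Hi.zero' _)).add (((Hi.X ρ).mul (Hi.X ρ)).mul (Hi.zero' _))

theorem hi_mon (a : W → ℕ) : Hi 2 (mon a - 1 - ∑ ρ, (a ρ : MvPolynomial W ℂ) * X ρ) := by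
  have key : ∀ s : Finset W, Hi 2 (∏ ρ ∈ s, (1 + X ρ) ^ a ρ - 1
      - ∑ ρ ∈ s, (a ρ : MvPolynomial W ℂ) * X ρ) := by
    intro s
    induction s using Finset.induction_on with
    | empty => simpa using Hi.zero 2
    | insert b s hb ih =>
      rw [Finset.prod_insert hb, Finset.sum_insert hb]
      have e : (1 + X b) ^ a b * ∏ ρ ∈ s, (1 + X ρ) ^ a ρ - 1
          - ((a b : MvPolynomial W ℂ) * X b + ∑ ρ ∈ s, (a ρ : MvPolynomial W ℂ) * X ρ)
          = ((1 + X b) ^ a b - 1 - (a b : MvPolynomial W ℂ) * X b)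
              * ∏ ρ ∈ s, (1 + X ρ) ^ a ρ
            + (1 + (a b : MvPolynomial W ℂ) * X b) * (∏ ρ ∈ s, (1 + X ρ) ^ a ρ - 1
              - ∑ ρ ∈ s, (a ρ : MvPolynomial W ℂ) * X ρ)
            + ((a b : MvPolynomial W ℂ)) * (X b * ∑ ρ ∈ s, (a ρ : MvPolynomial W ℂ) * X ρ) := by
        ring
      rw [e]
      have hs : Hi 1 (∑ ρ ∈ s, (a ρ : MvPolynomial W ℂ) * X ρ) := by
        refine Hi.of_hom (IsHomogeneous.sum _ _ _ fun ρ _ => ?_)
        have := isHomogeneous_C_mul_X ((a ρ : ℕ) : ℂ) ρ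
        simpa using this
      refine (((hi_pow b (a b)).mul (Hi.zero' _)).add ?_).add ?_
      · exact ((Hi.zero' _).mul ih).mono (by omega)
      · exact ((Hi.zero' _).mul ((Hi.X b).mul hs)).mono (by omega)
  exact key univ

/-- difference of two products -/
noncomputable def qq (a : W → ℤ) : MvPolynomial W ℂ :=
  mon (fun ρ => (a ρ).toNat) - mon (fun ρ => (-a ρ).toNat)

/-- the linear form -/
noncomputable def ll (a : W → ℤ) : MvPolynomial W ℂ := ∑ ρ, C ((a ρ : ℤ) : ℂ) * X ρ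

theorem ll_hom (a : W → ℤ) : (ll a).IsHomogeneous 1 :=
  IsHomogeneous.sum _ _ _ fun ρ _ => isHomogeneous_C_mul_X _ ρ

theorem hi_qq (a : W → ℤ) : Hi 2 (qq a - ll a) := by
  have h1 := (hi_mon (fun ρ => (a ρ).toNat)).sub (hi_mon (fun ρ => (-a ρ).toNat))
  have e : mon (fun ρ => (a ρ).toNat) - 1 - ∑ ρ, (((a ρ).toNat : ℕ) : MvPolynomial W ℂ) * X ρ
      - (mon (fun ρ => (-a ρ).toNat) - 1 - ∑ ρ, (((-a ρ).toNat : ℕ) : MvPolynomial W ℂ) * X ρ)
      = qq a - ll a := by
    have e1 : ll a = ∑ ρ, (((a ρ).toNat : ℕ) : MvPolynomial W ℂ) * X ρ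
        - ∑ ρ, (((-a ρ).toNat : ℕ) : MvPolynomial W ℂ) * X ρ := by
      rw [← Finset.sum_sub_distrib]
      refine Finset.sum_congr rfl fun ρ _ => ?_
      rw [← sub_mul]
      congr 1
      have h2 : ((a ρ).toNat : ℤ) - ((-a ρ).toNat : ℤ) = a ρ := Int.toNat_sub_toNat_neg _
      conv_lhs => rw [← h2]
      push_cast
      simp
    rw [e1, qq]
    ring
  rwa [e] at h1

end hi

/-! ### Action on functions -/

section act

variable {W : Type} [Fintype W]

theorem dact_mon (a : W → ℕ) (V : (W → ℤ) → ℂ) (h : W → ℤ) :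
    dact W (mon a) V h = V (h + fun ρ => (a ρ : ℤ)) := by
  have key : ∀ (s : Finset W) (V : (W → ℤ) → ℂ) (h : W → ℤ),
      dact W (∏ ρ ∈ s, (1 + X ρ) ^ a ρ) V h = V (h + ∑ ρ ∈ s, Pi.single ρ (a ρ : ℤ)) := by
    intro s
    induction s using Finset.induction_on with
    | empty => intro V h; simp
    | insert b s hb ih =>
      intro V h
      rw [Finset.prod_insert hb, Finset.sum_insert hb, map_mul, Module.End.mul_apply, dact_pow,
        ih, add_assoc]
  rw [mon, key]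
  congr 2
  funext ρ
  rw [Finset.sum_apply, Finset.sum_eq_single ρ]
  · rw [Pi.single_eq_same]
  · intro b _ hb
    rw [Pi.single_eq_of_ne (Ne.symm hb)]
  · intro h
    exact absurd (mem_univ ρ) h

theorem exists_bd (A : MvPolynomial W ℂ) : ∃ r N, Bd (dact W A) r N := by
  have key : ∀ s : Finset (W →₀ ℕ), ∃ r N, Bd (dact W (∑ α ∈ s, monomial α (A.coeff α))) r N := by
    intro s
    induction s using Finset.induction_on with
    | empty =>
      refine ⟨0, 0, ?_⟩
      rw [Finset.sum_empty, map_zero]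
      exact Bd.zero 0
    | insert b s hb ih =>
      obtain ⟨r, N, h⟩ := ih
      have h1 : Bd (dact W (∏ ρ, X ρ ^ b ρ)) (∑ ρ, b ρ) (∏ ρ, 2 ^ b ρ) := by
        refine bd_prod univ (fun ρ => X ρ ^ b ρ) (fun ρ => b ρ) (fun ρ => 2 ^ b ρ)
          (fun ρ _ => by positivity) fun ρ _ => ?_
        rw [map_pow]
        have := (bd_X ρ).pow (by norm_num) (b ρ)
        rwa [mul_one] at this
      have h2 := (h1.smul (A.coeff b)).add h
      refine ⟨max (∑ ρ, b ρ) r, ‖A.coeff b‖ * ∏ ρ, 2 ^ b ρ + N, ?_⟩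
      rw [Finset.sum_insert hb, map_add]
      have e : monomial b (A.coeff b) = (A.coeff b) • ∏ ρ, X ρ ^ b ρ := by
        rw [monomial_eq, Finsupp.prod_fintype _ _ (fun i => pow_zero _), smul_eq_C_mul]
      rw [e, map_smul]
      exact h2
  have := key A.support
  rwa [← A.as_sum] at this

/-- `U` vanishes near the points `M g` -/
def Van (g : W → ℝ) (U : (W → ℤ) → ℂ) : Prop :=
  ∃ η : ℝ, 0 < η ∧ ∃ M₀ : ℕ, ∀ M : ℕ, M₀ ≤ M → ∀ h : W → ℤ,
    (∀ ρ, |(h ρ : ℝ) - M * g ρ| ≤ η * M) → U h = 0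

theorem Van.zero (g : W → ℝ) : Van g 0 := ⟨1, one_pos, 0, fun _ _ _ _ => rfl⟩

theorem Van.add {g : W → ℝ} {U U' : (W → ℤ) → ℂ} (h : Van g U) (h' : Van g U') :
    Van g (U + U') := by
  obtain ⟨η, hη, M, hM⟩ := h
  obtain ⟨η', hη', M', hM'⟩ := h'
  refine ⟨min η η', lt_min hη hη', max M M', fun m hm h hh => ?_⟩
  have h1 := hM m (by omega) h fun ρ => (hh ρ).trans
    (mul_le_mul_of_nonneg_right (min_le_left _ _) (by positivity))
  have h2 := hM' m (by omega) h fun ρ => (hh ρ).trans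
    (mul_le_mul_of_nonneg_right (min_le_right _ _) (by positivity))
  rw [Pi.add_apply, h1, h2, add_zero]

theorem Van.dact {g : W → ℝ} {U : (W → ℤ) → ℂ} (h : Van g U) (A : MvPolynomial W ℂ) :
    Van g (dact W A U) := by
  obtain ⟨η, hη, M₀, hM⟩ := h
  obtain ⟨r, N, hA⟩ := exists_bd A
  obtain ⟨M₁, hM₁⟩ := exists_nat_gt (r / (η / 2))
  refine ⟨η / 2, by positivity, max M₀ M₁, fun m hm h hh => ?_⟩
  have h1 := hA U h 0 le_rfl fun h' hh' => by
    rw [hM m (by omega) h' fun ρ => ?_, norm_zero]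
    have h2 : |((h' ρ : ℝ)) - h ρ| ≤ r := by exact_mod_cast hh' ρ
    have h3 : (r : ℝ) ≤ η / 2 * m := by
      rw [div_lt_iff₀ (by positivity)] at hM₁
      have : (M₁ : ℝ) ≤ m := by exact_mod_cast (le_max_right M₀ M₁).trans hm
      nlinarith
    have h4 : (h' ρ : ℝ) - m * g ρ = ((h' ρ : ℝ) - h ρ) + (h ρ - m * g ρ) := by ring
    rw [h4]
    calc |((h' ρ : ℝ) - h ρ) + (h ρ - m * g ρ)| ≤ r + η / 2 * m :=
          (abs_add_le _ _).trans (add_le_add h2 (hh ρ))
      _ ≤ η * m := by linarith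
  rw [mul_zero] at h1
  exact norm_le_zero_iff.1 h1

theorem Van.smul {g : W → ℝ} {U : (W → ℤ) → ℂ} (h : Van g U) (c : ℂ) : Van g (c • U) := by
  obtain ⟨η, hη, M, hM⟩ := h
  refine ⟨η, hη, M, fun m hm h hh => ?_⟩
  rw [Pi.smul_apply, hM m hm h hh, smul_zero]

end act

/-! ### The counting functions -/

section count

variable {P W : Type} [Fintype P] [Fintype W]

theorem dact_qq (a : W → ℤ) (V : (W → ℤ) → ℂ) (h : W → ℤ) : dact W (qq a) V h
    = V (h + fun ρ => ((a ρ).toNat : ℤ)) - V (h + fun ρ => ((-a ρ).toNat : ℤ)) := by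
  rw [qq, map_sub, LinearMap.sub_apply, Pi.sub_apply, dact_mon, dact_mon]

/-- the shift -/
def sh (lam : P → W → ℤ) (T : Finset P) (ρ : W) : ℕ := ∑ i ∈ T, (-lam i ρ).toNat

theorem dact_prod_qq {lam : P → W → ℤ}
    (hd : ∀ (D : Finset P), ∀ i ∈ D, ∀ h : W → ℤ,
      vc lam D (h + lam i) = vc lam D h - vc lam (D.erase i) h) (D T : Finset P) (hT : T ⊆ D) :
    dact W (∏ i ∈ T, qq (lam i)) (vc lam D)
      = (-1 : ℂ) ^ T.card • dact W (mon (sh lam T)) (vc lam (D \ T)) := by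
  induction T using Finset.induction_on with
  | empty =>
    funext h
    rw [Finset.prod_empty, map_one, Finset.card_empty, pow_zero, one_smul, Finset.sdiff_empty,
      dact_mon, Module.End.one_apply]
    congr 1
    funext ρ
    simp [sh]
  | insert a s ha ih =>
    rw [Finset.prod_insert ha, map_mul, Module.End.mul_apply,
      ih ((Finset.subset_insert a s).trans hT), map_smul, Finset.card_insert_of_notMem ha,
      pow_succ, mul_smul]
    congr 1
    funext h
    rw [dact_qq, dact_mon, dact_mon, Pi.smul_apply, dact_mon]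
    have ha' : a ∈ D \ s := by
      rw [Finset.mem_sdiff]
      exact ⟨hT (mem_insert_self a s), ha⟩
    have e1 : (h + fun ρ => ((lam a ρ).toNat : ℤ)) + (fun ρ => ((sh lam s ρ : ℕ) : ℤ))
        = (h + fun ρ => ((sh lam (insert a s) ρ : ℕ) : ℤ)) + lam a := by
      funext ρ
      have h2 : ((lam a ρ).toNat : ℤ) - ((-lam a ρ).toNat : ℤ) = lam a ρ :=
        Int.toNat_sub_toNat_neg _
      have h3 : sh lam (insert a s) ρ = (-lam a ρ).toNat + sh lam s ρ := Finset.sum_insert ha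
      simp only [Pi.add_apply, h3]
      push_cast
      linarith
    have e2 : (h + fun ρ => ((-lam a ρ).toNat : ℤ)) + (fun ρ => ((sh lam s ρ : ℕ) : ℤ))
        = (h + fun ρ => ((sh lam (insert a s) ρ : ℕ) : ℤ)) := by
      funext ρ
      have h3 : sh lam (insert a s) ρ = (-lam a ρ).toNat + sh lam s ρ := Finset.sum_insert ha
      simp only [Pi.add_apply, h3]
      push_cast
      ring
    rw [e1, e2, hd (D \ s) a ha']
    have e3 : (D \ s).erase a = D \ insert a s := by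
      ext i
      simp only [Finset.mem_erase, Finset.mem_sdiff, Finset.mem_insert]
      tauto
    rw [e3]
    simp

theorem isHom_prodX (S : Finset W) : (∏ ρ ∈ S, X ρ : MvPolynomial W ℂ).IsHomogeneous S.card := by
  have := IsHomogeneous.prod S (fun ρ => (X ρ : MvPolynomial W ℂ)) (fun _ => 1)
    fun ρ _ => isHomogeneous_X ℂ ρ
  simpa using this

theorem isHom_prodll (lam : P → W → ℤ) (T : Finset P) :
    (∏ i ∈ T, ll (lam i)).IsHomogeneous T.card := by
  have := IsHomogeneous.prod T (fun i => ll (lam i)) (fun _ => 1) fun i _ => ll_hom (lam i)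
  simpa using this

/-- `y` agrees in degree `p` with an operator which kills `V` near the points `M g` -/
def Good (p : ℕ) (g : W → ℝ) (V : (W → ℤ) → ℂ) (y : MvPolynomial W ℂ) : Prop :=
  ∃ G : MvPolynomial W ℂ, Hi p G ∧ (∀ α : W →₀ ℕ, α.degree = p → (y - G).coeff α = 0) ∧
    Van g (dact W G V)

theorem Good.zero (p : ℕ) (g : W → ℝ) (V : (W → ℤ) → ℂ) (y : MvPolynomial W ℂ)
    (hy : ∀ α : W →₀ ℕ, α.degree = p → y.coeff α = 0) : Good p g V y := by
  refine ⟨0, Hi.zero p, fun α hα => ?_, ?_⟩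
  · rw [sub_zero, hy α hα]
  · rw [map_zero, LinearMap.zero_apply]
    exact Van.zero g

theorem Good.add {p : ℕ} {g : W → ℝ} {V : (W → ℤ) → ℂ} {y y' : MvPolynomial W ℂ}
    (h : Good p g V y) (h' : Good p g V y') : Good p g V (y + y') := by
  obtain ⟨G, h1, h2, h3⟩ := h
  obtain ⟨G', h1', h2', h3'⟩ := h'
  refine ⟨G + G', h1.add h1', fun α hα => ?_, ?_⟩
  · rw [add_sub_add_comm, coeff_add, h2 α hα, h2' α hα, add_zero]
  · rw [map_add, LinearMap.add_apply]
    exact h3.add h3'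

/-- multiplication of a homogeneous polynomial -/
theorem coeff_hom {e p : ℕ} (a x : MvPolynomial W ℂ) (hx : x.IsHomogeneous e) (α : W →₀ ℕ)
    (hα : α.degree = p) : (e ≤ p → (a * x - homogeneousComponent (p - e) a * x).coeff α = 0) ∧
      (p < e → (a * x).coeff α = 0) := by
  constructor
  · intro he
    rw [← sub_mul, coeff_mul]
    refine Finset.sum_eq_zero fun y hy => ?_
    have h1 : y.1 + y.2 = α := Finset.HasAntidiagonal.mem_antidiagonal.1 hy
    have h2 : y.1.degree + y.2.degree = α.degree := by rw [← map_add, h1]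
    by_cases h3 : y.2.degree = e
    · have h4 : y.1.degree = p - e := by omega
      rw [coeff_sub, coeff_homogeneousComponent, if_pos h4, sub_self, zero_mul]
    · rw [hx.coeff_eq_zero h3, mul_zero]
  · intro he
    rw [coeff_mul]
    refine Finset.sum_eq_zero fun y hy => ?_
    have h1 : y.1 + y.2 = α := Finset.HasAntidiagonal.mem_antidiagonal.1 hy
    have h2 : y.1.degree + y.2.degree = α.degree := by rw [← map_add, h1]
    rw [hx.coeff_eq_zero (by omega : y.2.degree ≠ e), mul_zero]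

theorem good_gen {lam : P → W → ℤ} {g : W → ℚ} (hg : ∀ ρ, 0 < g ρ)
    (hd : ∀ (D : Finset P), ∀ i ∈ D, ∀ h : W → ℤ,
      vc lam D (h + lam i) = vc lam D h - vc lam (D.erase i) h)
    (hf : ∀ (g : W → ℚ) (D : Finset P) (S : Finset W), (∀ ρ, 0 < g ρ) →
      ¬ IsFace (fun i ρ => (lam i ρ : ℚ)) g D S →
      ∃ η : ℝ, 0 < η ∧ ∃ M₀ : ℕ, ∀ M : ℕ, M₀ ≤ M → ∀ h : W → ℤ,
        (∀ ρ, |(h ρ : ℝ) - M * g ρ| ≤ η * M) →
        dact W (∏ ρ ∈ S, MvPolynomial.X ρ) (vc lam D) h = 0)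
    (D : Finset P) (S : Finset W) (hDS : ¬ IsFace (fun i ρ => (lam i ρ : ℚ)) g D S)
    (a : MvPolynomial W ℂ) :
    Good (Fintype.card P) (fun ρ => (g ρ : ℝ)) (vc lam univ)
      (a * ((∏ ρ ∈ S, X ρ) * ∏ i ∈ univ \ D, ll (lam i))) := by
  set p := Fintype.card P
  set e := S.card + (univ \ D).card with he
  have hom : ((∏ ρ ∈ S, X ρ) * ∏ i ∈ univ \ D, ll (lam i) : MvPolynomial W ℂ).IsHomogeneous e :=
    (isHom_prodX S).mul (isHom_prodll lam _)
  by_cases hep : e ≤ p
  · refine ⟨homogeneousComponent (p - e) a * ((∏ ρ ∈ S, X ρ) * ∏ i ∈ univ \ D, qq (lam i)),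
      ?_, fun α hα => ?_, ?_⟩
    · have h1 : Hi (p - e) (homogeneousComponent (p - e) a) :=
        Hi.of_hom (homogeneousComponent_isHomogeneous _ _)
      have h2 : Hi S.card (∏ ρ ∈ S, X ρ : MvPolynomial W ℂ) := Hi.of_hom (isHom_prodX S)
      have h3 : Hi (univ \ D).card (∏ i ∈ univ \ D, qq (lam i)) := by
        refine Hi.prod _ _ fun i _ => ?_
        have := ((hi_qq (lam i)).mono (by norm_num : 1 ≤ 2)).add (Hi.of_hom (ll_hom (lam i)))
        rwa [sub_add_cancel] at this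
      exact (h1.mul (h2.mul h3)).mono (by omega)
    · have h1 := (coeff_hom a _ hom α hα).1 hep
      have h2 : Hi (p + 1) (homogeneousComponent (p - e) a * ((∏ ρ ∈ S, X ρ)
          * (∏ i ∈ univ \ D, qq (lam i) - ∏ i ∈ univ \ D, ll (lam i)))) := by
        refine ((Hi.of_hom (homogeneousComponent_isHomogeneous _ _)).mul
          ((Hi.of_hom (isHom_prodX S)).mul (Hi.prod_sub (univ \ D) (fun i => qq (lam i))
            (fun i => ll (lam i)) (fun i _ => Hi.of_hom (ll_hom (lam i)))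
            fun i _ => hi_qq (lam i)))).mono ?_
        omega
      have h3 := h2 α (by omega)
      have e1 : a * ((∏ ρ ∈ S, X ρ) * ∏ i ∈ univ \ D, ll (lam i))
          - homogeneousComponent (p - e) a * ((∏ ρ ∈ S, X ρ) * ∏ i ∈ univ \ D, qq (lam i))
          = (a * ((∏ ρ ∈ S, X ρ) * ∏ i ∈ univ \ D, ll (lam i))
              - homogeneousComponent (p - e) a * ((∏ ρ ∈ S, X ρ) * ∏ i ∈ univ \ D, ll (lam i)))
            - homogeneousComponent (p - e) a * ((∏ ρ ∈ S, X ρ)
              * (∏ i ∈ univ \ D, qq (lam i) - ∏ i ∈ univ \ D, ll (lam i))) := by ring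
      rw [e1, coeff_sub, h1, h3, sub_zero]
    · rw [map_mul, Module.End.mul_apply]
      refine Van.dact ?_ _
      rw [map_mul, Module.End.mul_apply, dact_prod_qq hd univ (univ \ D) (Finset.subset_univ _),
        map_smul]
      refine Van.smul ?_ _
      have e1 : (univ \ (univ \ D) : Finset P) = D := by
        ext i
        simp
      rw [e1, ← Module.End.mul_apply, ← map_mul, mul_comm, map_mul, Module.End.mul_apply]
      refine Van.dact ?_ _
      obtain ⟨η, hη, M₀, h⟩ := hf g D S hg hDS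
      exact ⟨η, hη, M₀, h⟩
  · refine Good.zero _ _ _ _ fun α hα => ?_
    exact (coeff_hom a _ hom α hα).2 (by omega)

theorem algf_int (hA : AveStmt) (hV : VcntStmt) (lam : P → W → ℤ) (g : W → ℚ)
    (hg : ∀ ρ, 0 < g ρ)
    (hc : ∀ c : P → ℝ, (∀ i, 0 ≤ c i) → (∀ ρ, 0 ≤ ∑ i, c i * (lam i ρ : ℝ)) → c = 0) :
    ∏ i, lf (fun i ρ => (lam i ρ : ℚ)) i ∉ nfIdeal (fun i ρ => (lam i ρ : ℚ)) g := by
  obtain ⟨⟨C₀, hC₀⟩, hd, hempty, hf⟩ := hV P W lam hc
  have hlf : ∀ i, lf (fun i ρ => (lam i ρ : ℚ)) i = ll (lam i) := by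
    intro i
    unfold lf ll
    refine Finset.sum_congr rfl fun ρ _ => ?_
    congr 2
  have claim : ∀ x ∈ nfIdeal (fun i ρ => (lam i ρ : ℚ)) g, ∀ a : MvPolynomial W ℂ,
      Good (Fintype.card P) (fun ρ => (g ρ : ℝ)) (vc lam univ) (a * x) := by
    intro x hx
    unfold nfIdeal at hx
    refine Submodule.span_induction (p := fun x _ => ∀ a : MvPolynomial W ℂ,
      Good (Fintype.card P) (fun ρ => (g ρ : ℝ)) (vc lam univ) (a * x)) ?_ ?_ ?_ ?_ hx
    · rintro x (⟨D, S, hDS, rfl⟩ | ⟨α₀, hα₀, rfl⟩) a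
      · have := good_gen hg hd hf D S hDS a
        simp_rw [hlf]
        exact this
      · refine Good.zero _ _ _ _ fun α hα => ?_
        have h1 : Hi (Fintype.card P + 1) (monomial α₀ (1 : ℂ)) := by
          intro β hβ
          rw [coeff_monomial, if_neg]
          rintro rfl
          rw [Finsupp.degree_eq_sum] at hβ
          omega
        exact ((Hi.zero' a).mul h1) α (by omega)
    · intro a
      rw [mul_zero]
      exact Good.zero _ _ _ _ fun α _ => coeff_zero α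
    · intro x y _ _ hx hy a
      rw [mul_add]
      exact (hx a).add (hy a)
    · intro b x _ hx a
      rw [smul_eq_mul, ← mul_assoc]
      exact hx (a * b)
  intro hmem
  simp_rw [hlf] at hmem
  obtain ⟨G, hG1, hG2, η, hη, M₀, hG3⟩ := claim _ hmem 1
  rw [one_mul] at hG2
  have hhom : (∏ i, ll (lam i)).IsHomogeneous (Fintype.card P) := isHom_prodll lam univ
  have h1 : Hi (Fintype.card P + 1) (∏ i, ll (lam i) - G) := by
    intro α hα
    rcases Nat.lt_succ_iff_lt_or_eq.1 hα with h | h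
    · rw [coeff_sub, hG1 α h, Hi.of_hom hhom α h, sub_zero]
    · exact hG2 α h
  have h2 : Hi (Fintype.card P + 1) (∏ i, qq (lam i) - ∏ i, ll (lam i)) :=
    Hi.prod_sub univ (fun i => qq (lam i)) (fun i => ll (lam i))
      (fun i _ => Hi.of_hom (ll_hom (lam i))) fun i _ => hi_qq (lam i)
  have h3 : Hi (Fintype.card P + 1) (∏ i, qq (lam i) - G) := by
    have := h2.add h1
    rwa [sub_add_sub_cancel] at this
  -- a lower bound for g
  obtain ⟨η', hη', hηg⟩ : ∃ η' : ℝ, 0 < η' ∧ ∀ ρ, η' ≤ (g ρ : ℝ) := by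
    rcases isEmpty_or_nonempty W with hW | hW
    · exact ⟨1, one_pos, fun ρ => (hW.false ρ).elim⟩
    · obtain ⟨ρ₀, hρ₀⟩ := Finite.exists_min g
      exact ⟨g ρ₀, by exact_mod_cast hg ρ₀, fun ρ => by exact_mod_cast hρ₀ ρ⟩
  have h4 := hA W (Fintype.card P) (fun ρ => (g ρ : ℝ)) (vc lam univ) C₀
    (fun h => hC₀ univ h) (∏ i, qq (lam i) - G) (fun α hα => h3 α (by
      rw [Finsupp.degree_eq_sum]
      omega)) (min η η') (lt_min hη hη') M₀ ((-1) ^ Fintype.card P) ?_
  · exact absurd h4 (pow_ne_zero _ (by norm_num))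
  · intro M hM h hh
    rw [map_sub, LinearMap.sub_apply, Pi.sub_apply, hG3 M hM h fun ρ => (hh ρ).trans
      (mul_le_mul_of_nonneg_right (min_le_left _ _) (by positivity)), sub_zero,
      dact_prod_qq hd univ univ (Finset.Subset.refl _), Pi.smul_apply, dact_mon]
    have e1 : (univ \ univ : Finset P) = ∅ := Finset.sdiff_self _
    rw [e1, hempty, smul_eq_mul, mul_one, Finset.card_univ]
    intro ρ
    have h5 := hh ρ
    have h6 : min η η' * M ≤ (g ρ : ℝ) * M :=
      mul_le_mul_of_nonneg_right ((min_le_right _ _).trans (hηg ρ)) (by positivity)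
    rw [abs_le] at h5
    have h7 : (0 : ℝ) ≤ h ρ := by nlinarith [h5.1]
    have h8 : 0 ≤ h ρ := by exact_mod_cast h7
    show 0 ≤ h ρ + ((sh lam univ ρ : ℕ) : ℤ)
    positivity

end count

/-- MODULE ALGF -/
theorem algf (hA : AveStmt) (hV : VcntStmt) : AlgStmt := by
  intro P W _ _ lam g hg hc hmem
  -- common denominators
  have hden : ∀ i : P, ∃ d : ℕ, 0 < d ∧ ∀ ρ, ∃ z : ℤ, (z : ℚ) = d * lam i ρ := by
    intro i
    refine ⟨∏ ρ, (lam i ρ).den, Finset.prod_pos fun ρ _ => (lam i ρ).pos, fun ρ => ?_⟩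
    refine ⟨(∏ ρ' ∈ univ.erase ρ, ((lam i ρ').den : ℤ)) * (lam i ρ).num, ?_⟩
    rw [← Finset.mul_prod_erase univ (fun ρ => (lam i ρ).den) (Finset.mem_univ ρ)]
    push_cast
    have : (lam i ρ) * ((lam i ρ).den : ℚ) = (lam i ρ).num := Rat.mul_den_eq_num _
    rw [← this]
    ring
  choose d hd0 z hz using hden
  have hdr : ∀ i, (0 : ℝ) < d i := fun i => by exact_mod_cast hd0 i
  have hzr : ∀ i ρ, (z i ρ : ℝ) = d i * (lam i ρ : ℝ) := by
    intro i ρ
    have := hz i ρ
    have h2 : ((z i ρ : ℚ) : ℝ) = ((d i * lam i ρ : ℚ) : ℝ) := by rw [this]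
    push_cast at h2
    exact h2
  -- the cone condition
  have hc' : ∀ c : P → ℝ, (∀ i, 0 ≤ c i) → (∀ ρ, 0 ≤ ∑ i, c i * (z i ρ : ℝ)) → c = 0 := by
    intro c h0 h1
    have h2 := hc (fun i => c i * d i) (fun i => mul_nonneg (h0 i) (hdr i).le) fun ρ => by
      have := h1 ρ
      simp_rw [hzr] at this
      simpa [mul_assoc] using this
    funext i
    have h3 := congrFun h2 i
    simp only [Pi.zero_apply] at h3
    rcases mul_eq_zero.1 h3 with h | h
    · exact h
    · exact absurd h (hdr i).ne'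
  have hface : ∀ D S, IsFace (fun i ρ => (z i ρ : ℚ)) g D S → IsFace lam g D S := by
    rintro D S ⟨c, h1, h2, h3, h4⟩
    have e : ∀ ρ, ∑ i, c i * d i * (lam i ρ : ℝ) = ∑ i, c i * (((z i ρ : ℚ)) : ℝ) := by
      intro ρ
      refine Finset.sum_congr rfl fun i _ => ?_
      rw [Rat.cast_intCast, hzr]
      ring
    refine ⟨fun i => c i * d i, fun i => mul_nonneg (h1 i) (hdr i).le, fun i hi => ?_,
      fun ρ => ?_, fun ρ hρ => ?_⟩
    · show c i * d i = 0
      rw [h2 i hi, zero_mul]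
    · show (0 : ℝ) ≤ (g ρ : ℝ) + ∑ i, c i * d i * (lam i ρ : ℝ)
      rw [e]
      exact h3 ρ
    · show (g ρ : ℝ) + ∑ i, c i * d i * (lam i ρ : ℝ) = 0
      rw [e]
      exact h4 ρ hρ
  have hlf : ∀ i, lf (fun i ρ => (z i ρ : ℚ)) i = C ((d i : ℕ) : ℂ) * lf lam i := by
    intro i
    unfold lf
    rw [Finset.mul_sum]
    refine Finset.sum_congr rfl fun ρ _ => ?_
    show C (((z i ρ : ℤ) : ℚ) : ℂ) * X ρ = _
    rw [hz, ← mul_assoc, ← C_mul]
    push_cast
    rfl
  have hle : nfIdeal lam g ≤ nfIdeal (fun i ρ => (z i ρ : ℚ)) g := by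
    unfold nfIdeal
    rw [Ideal.span_le]
    rintro x (⟨D, S, hDS, rfl⟩ | hx)
    · have h1 : ((∏ ρ ∈ S, X ρ) * ∏ i ∈ univ \ D, lf lam i : MvPolynomial W ℂ)
          = C (∏ i ∈ univ \ D, ((d i : ℕ) : ℂ))⁻¹
            * ((∏ ρ ∈ S, X ρ) * ∏ i ∈ univ \ D, lf (fun i ρ => (z i ρ : ℚ)) i) := by
        simp_rw [hlf]
        rw [Finset.prod_mul_distrib, ← map_prod]
        have h2 : (∏ i ∈ univ \ D, ((d i : ℕ) : ℂ)) ≠ 0 :=
          Finset.prod_ne_zero_iff.2 fun i _ => by exact_mod_cast (hd0 i).ne'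
        have h3 : (C (∏ i ∈ univ \ D, ((d i : ℕ) : ℂ))⁻¹ : MvPolynomial W ℂ)
            * C (∏ i ∈ univ \ D, ((d i : ℕ) : ℂ)) = 1 := by
          rw [← C_mul, inv_mul_cancel₀ h2, C_1]
        calc _ = (1 : MvPolynomial W ℂ) * ((∏ ρ ∈ S, X ρ) * ∏ i ∈ univ \ D, lf lam i) := by
              rw [one_mul]
          _ = _ := by
              rw [← h3]
              ring
      rw [h1]
      refine Ideal.mul_mem_left _ _ (Ideal.subset_span (Or.inl ⟨D, S, fun h => hDS (hface D S h),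
        rfl⟩))
    · exact Ideal.subset_span (Or.inr hx)
  refine algf_int hA hV z g hg hc' ?_
  simp_rw [hlf]
  rw [Finset.prod_mul_distrib]
  exact Ideal.mul_mem_left _ _ (hle hmem)

end Pool.Agent.Helper30_Simp.H94
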