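import Pool.Agent.Helper30_Simp.Stmts

/-!
# Module AVE
-/

set_option autoImplicit false

namespace Pool.Agent.Helper30_Simp.H94

open MvPolynomial

variable {W : Type} [Fintype W] [DecidableEq W]

/-- operators with norm at most `N` which look at distance at most `r` -/
def Bd (E : Module.End ℂ ((W → ℤ) → ℂ)) (r : ℕ) (N : ℝ) : Prop :=
  ∀ (V : (W → ℤ) → ℂ) (h : W → ℤ) (B : ℝ), 0 ≤ B →
    (∀ h' : W → ℤ, (∀ ρ, |h' ρ - h ρ| ≤ r) → ‖V h'‖ ≤ B) → ‖E V h‖ ≤ N * B

/-- operators which multiply functions constant near a point by `N` -/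
def Av (E : Module.End ℂ ((W → ℤ) → ℂ)) (r : ℕ) (N : ℂ) : Prop :=
  ∀ (V : (W → ℤ) → ℂ) (h : W → ℤ) (c : ℂ),
    (∀ h' : W → ℤ, (∀ ρ, |h' ρ - h ρ| ≤ r) → V h' = c) → E V h = N * c

omit [Fintype W] [DecidableEq W] in
theorem Bd.mono {E : Module.End ℂ ((W → ℤ) → ℂ)} {r r' : ℕ} {N N' : ℝ} (hE : Bd E r N)
    (hr : r ≤ r') (hN : N ≤ N') : Bd E r' N' := by
  intro V h B hB hV
  refine (hE V h B hB fun h' hh => hV h' fun ρ => (hh ρ).trans (by exact_mod_cast hr)).trans ?_
  exact mul_le_mul_of_nonneg_right hN hB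

omit [Fintype W] [DecidableEq W] in
theorem Bd.one : Bd (1 : Module.End ℂ ((W → ℤ) → ℂ)) 0 1 := by
  intro V h B hB hV
  rw [Module.End.one_apply, one_mul]
  exact hV h fun ρ => by simp

omit [Fintype W] [DecidableEq W] in
theorem Bd.mul {E F : Module.End ℂ ((W → ℤ) → ℂ)} {r s : ℕ} {N P : ℝ} (hE : Bd E r N)
    (hF : Bd F s P) (hP : 0 ≤ P) : Bd (E * F) (r + s) (N * P) := by
  intro V h B hB hV
  rw [Module.End.mul_apply, mul_assoc]
  refine hE (F V) h (P * B) (mul_nonneg hP hB) fun h' hh => ?_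
  refine hF V h' B hB fun h'' hh' => hV h'' fun ρ => ?_
  have h1 := hh ρ
  have h2 := hh' ρ
  push_cast
  rw [abs_le] at *
  constructor <;> linarith

omit [Fintype W] [DecidableEq W] in
theorem Bd.add {E F : Module.End ℂ ((W → ℤ) → ℂ)} {r s : ℕ} {N P : ℝ} (hE : Bd E r N)
    (hF : Bd F s P) : Bd (E + F) (max r s) (N + P) := by
  intro V h B hB hV
  rw [LinearMap.add_apply, Pi.add_apply, add_mul]
  refine (norm_add_le _ _).trans (add_le_add ?_ ?_)
  · exact hE V h B hB fun h' hh => hV h' fun ρ => (hh ρ).trans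
      (by exact_mod_cast le_max_left r s)
  · exact hF V h B hB fun h' hh => hV h' fun ρ => (hh ρ).trans
      (by exact_mod_cast le_max_right r s)

omit [Fintype W] [DecidableEq W] in
theorem Bd.smul {E : Module.End ℂ ((W → ℤ) → ℂ)} {r : ℕ} {N : ℝ} (hE : Bd E r N) (a : ℂ) :
    Bd (a • E) r (‖a‖ * N) := by
  intro V h B hB hV
  rw [LinearMap.smul_apply, Pi.smul_apply, smul_eq_mul, norm_mul, mul_assoc]
  exact mul_le_mul_of_nonneg_left (hE V h B hB hV) (norm_nonneg _)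

omit [Fintype W] [DecidableEq W] in
theorem Bd.zero (r : ℕ) : Bd (0 : Module.End ℂ ((W → ℤ) → ℂ)) r 0 := by
  intro V h B hB hV
  simp

omit [Fintype W] [DecidableEq W] in
theorem Bd.sum {ι : Type} (s : Finset ι) (E : ι → Module.End ℂ ((W → ℤ) → ℂ)) (r : ℕ)
    (N : ι → ℝ) (h : ∀ i ∈ s, Bd (E i) r (N i)) : Bd (∑ i ∈ s, E i) r (∑ i ∈ s, N i) := by
  classical
  induction s using Finset.induction_on with
  | empty => simpa using Bd.zero r
  | insert a s ha ih =>
    rw [Finset.sum_insert ha, Finset.sum_insert ha]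
    have := (h a (Finset.mem_insert_self a s)).add
      (ih fun i hi => h i (Finset.mem_insert_of_mem hi))
    rwa [max_self] at this

omit [Fintype W] [DecidableEq W] in
theorem Bd.pow {E : Module.End ℂ ((W → ℤ) → ℂ)} {r : ℕ} {N : ℝ} (hE : Bd E r N) (hN : 0 ≤ N)
    (n : ℕ) : Bd (E ^ n) (n * r) (N ^ n) := by
  induction n with
  | zero => simpa using Bd.one
  | succ n ih =>
    rw [pow_succ, pow_succ, Nat.succ_mul]
    exact ih.mul hE hN

omit [Fintype W] [DecidableEq W] in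
theorem Av.one : Av (1 : Module.End ℂ ((W → ℤ) → ℂ)) 0 1 := by
  intro V h c hV
  rw [Module.End.one_apply, one_mul]
  exact hV h fun ρ => by simp

omit [Fintype W] [DecidableEq W] in
theorem Av.mono {E : Module.End ℂ ((W → ℤ) → ℂ)} {r r' : ℕ} {N : ℂ} (hE : Av E r N)
    (hr : r ≤ r') : Av E r' N := by
  intro V h c hV
  exact hE V h c fun h' hh => hV h' fun ρ => (hh ρ).trans (by exact_mod_cast hr)

omit [Fintype W] [DecidableEq W] in
theorem Av.mul {E F : Module.End ℂ ((W → ℤ) → ℂ)} {r s : ℕ} {N P : ℂ} (hE : Av E r N)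
    (hF : Av F s P) : Av (E * F) (r + s) (N * P) := by
  intro V h c hV
  rw [Module.End.mul_apply, mul_assoc]
  refine hE (F V) h (P * c) fun h' hh => ?_
  refine hF V h' c fun h'' hh' => hV h'' fun ρ => ?_
  have h1 := hh ρ
  have h2 := hh' ρ
  push_cast
  rw [abs_le] at *
  constructor <;> linarith

omit [Fintype W] [DecidableEq W] in
theorem Av.pow {E : Module.End ℂ ((W → ℤ) → ℂ)} {r : ℕ} {N : ℂ} (hE : Av E r N)
    (n : ℕ) : Av (E ^ n) (n * r) (N ^ n) := by
  induction n with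
  | zero => simpa using Av.one
  | succ n ih =>
    rw [pow_succ, pow_succ, Nat.succ_mul]
    exact ih.mul hE

omit [Fintype W] [DecidableEq W] in
theorem Av.sum {ι : Type} (s : Finset ι) (E : ι → Module.End ℂ ((W → ℤ) → ℂ)) (r : ℕ)
    (N : ι → ℂ) (h : ∀ i ∈ s, Av (E i) r (N i)) : Av (∑ i ∈ s, E i) r (∑ i ∈ s, N i) := by
  intro V h' c hV
  rw [LinearMap.sum_apply, Finset.sum_apply, Finset.sum_mul]
  exact Finset.sum_congr rfl fun i hi => h i hi V h' c hV

/-! ### The shift operators -/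

omit [Fintype W] in
theorem dact_pow (ρ : W) (i : ℕ) (V : (W → ℤ) → ℂ) (h : W → ℤ) :
    dact W ((1 + X ρ) ^ i) V h = V (h + Pi.single ρ (i : ℤ)) := by
  induction i generalizing h with
  | zero => simp
  | succ i ih =>
    rw [pow_succ', map_mul, Module.End.mul_apply, map_add, map_one, LinearMap.add_apply,
      Pi.add_apply, Module.End.one_apply, dact_X, ih, ih]
    have : h + Pi.single ρ 1 + Pi.single ρ (i : ℤ) = h + Pi.single ρ ((i + 1 : ℕ) : ℤ) := by
      rw [add_assoc, ← Pi.single_add]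
      push_cast
      rw [add_comm (1 : ℤ)]
    rw [this]
    ring

omit [Fintype W] in
theorem single_le (ρ ρ' : W) (i : ℕ) (h : W → ℤ) :
    |(h + Pi.single ρ (i : ℤ) : W → ℤ) ρ' - h ρ'| ≤ (i : ℤ) := by
  rw [Pi.add_apply, add_sub_cancel_left]
  by_cases hρ : ρ' = ρ
  · subst hρ
    rw [Pi.single_eq_same, abs_of_nonneg (Int.natCast_nonneg i)]
  · rw [Pi.single_eq_of_ne hρ, abs_zero]
    exact Int.natCast_nonneg i

omit [Fintype W] in
theorem bd_T (ρ : W) (i : ℕ) : Bd (dact W ((1 + X ρ) ^ i)) i 1 := by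
  intro V h B hB hV
  rw [dact_pow, one_mul]
  exact hV _ fun ρ' => single_le ρ ρ' i h

omit [Fintype W] in
theorem av_T (ρ : W) (i : ℕ) : Av (dact W ((1 + X ρ) ^ i)) i 1 := by
  intro V h c hV
  rw [dact_pow, one_mul]
  exact hV _ fun ρ' => single_le ρ ρ' i h

/-- the geometric sum -/
noncomputable def S (L : ℕ) (ρ : W) : MvPolynomial W ℂ := ∑ i ∈ Finset.range L, (1 + X ρ) ^ i

omit [Fintype W] [DecidableEq W] in
theorem X_mul_S (L : ℕ) (ρ : W) : X ρ * S L ρ = (1 + X ρ) ^ L - 1 := by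
  have := mul_geom_sum (1 + X ρ : MvPolynomial W ℂ) L
  rw [add_sub_cancel_left] at this
  exact this

omit [Fintype W] in
theorem bd_S (L : ℕ) (ρ : W) : Bd (dact W (S L ρ)) L L := by
  unfold S
  rw [map_sum]
  have := Bd.sum (Finset.range L) (fun i => dact W ((1 + X ρ) ^ i)) L (fun _ => 1)
    fun i hi => (bd_T ρ i).mono (Finset.mem_range.1 hi).le le_rfl
  simpa using this

omit [Fintype W] in
theorem av_S (L : ℕ) (ρ : W) : Av (dact W (S L ρ)) L L := by
  unfold S
  rw [map_sum]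
  have := Av.sum (Finset.range L) (fun i => dact W ((1 + X ρ) ^ i)) L (fun _ => 1)
    fun i hi => (av_T ρ i).mono (Finset.mem_range.1 hi).le
  simpa using this

omit [Fintype W] in
theorem bd_D (L : ℕ) (ρ : W) : Bd (dact W ((1 + X ρ) ^ L - 1)) L 2 := by
  have h1 : ((1 + X ρ) ^ L - 1 : MvPolynomial W ℂ) = (1 + X ρ) ^ L + (-1 : ℂ) • 1 := by
    rw [neg_one_smul, sub_eq_add_neg]
  rw [h1, map_add, map_smul, map_one]
  have := (bd_T ρ L).add (Bd.one.smul (-1 : ℂ) (W := W))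
  refine this.mono ?_ ?_
  · simp
  · norm_num

omit [Fintype W] in
theorem bd_X (ρ : W) : Bd (dact W (X ρ)) 1 2 := by
  have := bd_D 1 ρ
  rwa [pow_one, add_sub_cancel_left] at this

omit [Fintype W] in
/-- the factor of one variable -/
theorem bd_var (L : ℕ) (ρ : W) (K a : ℕ) : Bd (dact W (S L ρ ^ K * X ρ ^ a))
    (K * L + a) (2 ^ a * (L : ℝ) ^ (K - min a K)) := by
  have h1 : S L ρ ^ K * X ρ ^ a = (X ρ * S L ρ) ^ min a K * (X ρ ^ (a - min a K)
      * S L ρ ^ (K - min a K)) := by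
    rw [mul_pow, mul_mul_mul_comm, ← pow_add, ← pow_add,
      Nat.add_sub_cancel' (min_le_left a K), Nat.add_sub_cancel' (min_le_right a K)]
    ring
  rw [h1, X_mul_S, map_mul, map_mul, map_pow, map_pow, map_pow]
  have h2 := ((bd_D L ρ).pow (by norm_num) (min a K)).mul
    (((bd_X ρ).pow (by norm_num) (a - min a K)).mul
      ((bd_S L ρ).pow (Nat.cast_nonneg L) (K - min a K)) (by positivity)) (by positivity)
  refine h2.mono ?_ (le_of_eq ?_)
  · obtain ⟨b, hb⟩ := Nat.exists_eq_add_of_le (min_le_right a K)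
    obtain ⟨d, hd⟩ := Nat.exists_eq_add_of_le (min_le_left a K)
    have e1 : K - min a K = b := by omega
    have e2 : a - min a K = d := by omega
    rw [e1, e2]
    have : min a K * L + (d * 1 + b * L) = K * L + d := by
      conv_rhs => rw [hb]
      ring
    rw [this]
    omega
  · rw [← mul_assoc, ← pow_add, Nat.add_sub_cancel' (min_le_left a K)]

omit [Fintype W] in
theorem bd_prod {ι : Type} (s : Finset ι) (F : ι → MvPolynomial W ℂ) (r : ι → ℕ) (N : ι → ℝ)
    (hN : ∀ i ∈ s, 0 ≤ N i) (h : ∀ i ∈ s, Bd (dact W (F i)) (r i) (N i)) :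
    Bd (dact W (∏ i ∈ s, F i)) (∑ i ∈ s, r i) (∏ i ∈ s, N i) := by
  classical
  induction s using Finset.induction_on with
  | empty =>
    rw [Finset.prod_empty, Finset.sum_empty, Finset.prod_empty, map_one]
    exact Bd.one
  | insert a s ha ih =>
    rw [Finset.prod_insert ha, Finset.sum_insert ha, Finset.prod_insert ha, map_mul]
    exact (h a (Finset.mem_insert_self a s)).mul
      (ih (fun i hi => hN i (Finset.mem_insert_of_mem hi))
        fun i hi => h i (Finset.mem_insert_of_mem hi))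
      (Finset.prod_nonneg fun i hi => hN i (Finset.mem_insert_of_mem hi))

omit [Fintype W] in
theorem av_prod {ι : Type} (s : Finset ι) (F : ι → MvPolynomial W ℂ) (r : ι → ℕ) (N : ι → ℂ)
    (h : ∀ i ∈ s, Av (dact W (F i)) (r i) (N i)) :
    Av (dact W (∏ i ∈ s, F i)) (∑ i ∈ s, r i) (∏ i ∈ s, N i) := by
  classical
  induction s using Finset.induction_on with
  | empty =>
    rw [Finset.prod_empty, Finset.sum_empty, Finset.prod_empty, map_one]
    exact Av.one
  | insert a s ha ih =>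
    rw [Finset.prod_insert ha, Finset.sum_insert ha, Finset.prod_insert ha, map_mul]
    exact (h a (Finset.mem_insert_self a s)).mul
      (ih fun i hi => h i (Finset.mem_insert_of_mem hi))

/-- the averaging operator -/
noncomputable def AL (L K : ℕ) : MvPolynomial W ℂ := ∏ ρ, S L ρ ^ K

theorem av_AL (L K : ℕ) : Av (dact W (AL (W := W) L K)) (Fintype.card W * (K * L))
    ((L : ℂ) ^ (K * Fintype.card W)) := by
  have := av_prod (W := W) Finset.univ (fun ρ => S L ρ ^ K) (fun _ => K * L)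
    (fun _ => (L : ℂ) ^ K) fun ρ _ => by
      rw [map_pow]
      exact (av_S L ρ).pow K
  rw [Finset.sum_const, Finset.prod_const, Finset.card_univ, smul_eq_mul, ← pow_mul] at this
  exact this

theorem bd_mono (L K : ℕ) (hL : 1 ≤ L) (α : W →₀ ℕ) (hα : K ≤ ∑ ρ, α ρ) :
    ∃ N : ℝ, 0 ≤ N ∧ N * (L : ℝ) ^ K ≤ 2 ^ (∑ ρ, α ρ) * (L : ℝ) ^ (K * Fintype.card W) ∧
      Bd (dact W (AL L K * monomial α 1)) (Fintype.card W * (K * L) + ∑ ρ, α ρ) N := by
  refine ⟨∏ ρ, (2 ^ α ρ * (L : ℝ) ^ (K - min (α ρ) K)), Finset.prod_nonneg fun ρ _ => by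
    positivity, ?_, ?_⟩
  · rw [Finset.prod_mul_distrib, Finset.prod_pow_eq_pow_sum, Finset.prod_pow_eq_pow_sum,
      mul_assoc, ← pow_add]
    refine mul_le_mul_of_nonneg_left ?_ (by positivity)
    refine pow_le_pow_right₀ (by exact_mod_cast hL) ?_
    have h1 : ∑ ρ, (K - min (α ρ) K) + ∑ ρ, min (α ρ) K = K * Fintype.card W := by
      rw [← Finset.sum_add_distrib]
      simp [Nat.sub_add_cancel (min_le_right _ _), mul_comm]
    have h2 : K ≤ ∑ ρ, min (α ρ) K := by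
      by_cases h3 : ∃ ρ, K ≤ α ρ
      · obtain ⟨ρ, hρ⟩ := h3
        calc K = min (α ρ) K := (min_eq_right hρ).symm
          _ ≤ ∑ ρ, min (α ρ) K := Finset.single_le_sum (f := fun ρ => min (α ρ) K)
              (fun _ _ => Nat.zero_le _) (Finset.mem_univ ρ)
      · push Not at h3
        have : ∑ ρ, min (α ρ) K = ∑ ρ, α ρ := Finset.sum_congr rfl fun ρ _ =>
          min_eq_left (h3 ρ).le
        rw [this]
        exact hα
    omega
  · have h1 : AL L K * monomial α (1 : ℂ) = ∏ ρ, (S L ρ ^ K * X ρ ^ α ρ) := by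
      rw [Finset.prod_mul_distrib, AL]
      congr 1
      rw [monomial_eq, Finsupp.prod_fintype _ _ (fun i => pow_zero _), C_1, one_mul]
    rw [h1]
    have := bd_prod (W := W) Finset.univ (fun ρ => S L ρ ^ K * X ρ ^ α ρ)
      (fun ρ => K * L + α ρ) (fun ρ => 2 ^ α ρ * (L : ℝ) ^ (K - min (α ρ) K))
      (fun ρ _ => by positivity) fun ρ _ => bd_var L ρ K (α ρ)
    refine this.mono (le_of_eq ?_) le_rfl
    rw [Finset.sum_add_distrib, Finset.sum_const, Finset.card_univ, smul_eq_mul]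

/-- MODULE AVE -/
theorem ave : AveStmt := by
  intro W _ _ p g V C hC G hG η hη M₀ c hc
  classical
  set K := p + 1 with hK
  set n := Fintype.card W with hn
  -- total degree bound
  set D : ℕ := ∑ α ∈ G.support, ∑ ρ, α ρ with hD
  have hdeg : ∀ α ∈ G.support, ∑ ρ, α ρ ≤ D := fun α hα =>
    Finset.single_le_sum (f := fun α : W →₀ ℕ => ∑ ρ, α ρ) (fun _ _ => Nat.zero_le _) hα
  have hKα : ∀ α ∈ G.support, K ≤ ∑ ρ, α ρ := by
    intro α hα
    by_contra h
    exact (mem_support_iff.1 hα) (hG α (by omega))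
  have hC0 : 0 ≤ C := by
    have := (norm_nonneg _).trans (hC 0)
    by_contra h
    push Not at h
    have h2 : 0 < (1 + ∑ ρ : W, |(((0 : W → ℤ) ρ : ℤ) : ℝ)|) ^ p := by positivity
    nlinarith [mul_neg_of_neg_of_pos h h2]
  -- the scale
  obtain ⟨q, hq⟩ := exists_nat_gt ((n * K + 1 : ℝ) / η)
  have hq' : (n * K + 1 : ℝ) ≤ η * q := by
    rw [div_lt_iff₀ hη] at hq
    linarith
  set G1 : ℝ := ∑ α ∈ G.support, ‖G.coeff α‖ * 2 ^ (∑ ρ, α ρ) with hG1
  have hG10 : 0 ≤ G1 := Finset.sum_nonneg fun α _ => by positivity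
  set Y : ℝ := 1 + ∑ ρ, (|g ρ| * q + 1 + n * K + D) with hY
  have hY0 : 0 ≤ Y := by positivity
  have main : ∀ L : ℕ, 1 ≤ L → M₀ ≤ q * L → ‖c‖ * L ≤ G1 * (C * Y ^ p) := by
    intro L hL hM
    have hLr : (1 : ℝ) ≤ L := by exact_mod_cast hL
    set h : W → ℤ := fun ρ => ⌊((q * L : ℕ) : ℝ) * g ρ⌋ with hh
    have hfl : ∀ ρ, |(h ρ : ℝ) - ((q * L : ℕ) : ℝ) * g ρ| ≤ 1 := by
      intro ρ
      have h1 := Int.floor_le (((q * L : ℕ) : ℝ) * g ρ)
      have h2 := Int.lt_floor_add_one (((q * L : ℕ) : ℝ) * g ρ)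
      rw [abs_le]
      constructor
      · show -1 ≤ ((⌊((q * L : ℕ) : ℝ) * g ρ⌋ : ℤ) : ℝ) - _
        linarith
      · show ((⌊((q * L : ℕ) : ℝ) * g ρ⌋ : ℤ) : ℝ) - _ ≤ 1
        linarith
    -- value of the averaged function
    have e1 : dact W (AL L K * G) V h = (L : ℂ) ^ (K * n) * c := by
      rw [map_mul, Module.End.mul_apply]
      refine av_AL L K (dact W G V) h c fun h' hh' => hc (q * L) hM h' fun ρ => ?_
      have h1 := hfl ρ
      have h2 : |((h' ρ : ℝ)) - h ρ| ≤ n * (K * L) := by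
        have := hh' ρ
        have h3 : (|h' ρ - h ρ| : ℝ) ≤ ((Fintype.card W * (K * L) : ℕ) : ℝ) := by
          exact_mod_cast this
        push_cast at h3
        rw [hn]
        exact h3
      have h3 : |(h' ρ : ℝ) - ((q * L : ℕ) : ℝ) * g ρ| ≤ n * (K * L) + 1 := by
        have : (h' ρ : ℝ) - ((q * L : ℕ) : ℝ) * g ρ
            = ((h' ρ : ℝ) - h ρ) + (h ρ - ((q * L : ℕ) : ℝ) * g ρ) := by ring
        rw [this]
        exact (abs_add_le _ _).trans (add_le_add h2 h1)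
      refine h3.trans ?_
      push_cast
      have h4 : (n * K + 1 : ℝ) * L ≤ η * q * L := mul_le_mul_of_nonneg_right hq' (by positivity)
      nlinarith
    -- bound of the averaged function
    set B : ℝ := C * (Y * L) ^ p with hB
    have hB0 : 0 ≤ B := by positivity
    have hVB : ∀ h' : W → ℤ, (∀ ρ, |h' ρ - h ρ| ≤ ((n * (K * L) + D : ℕ) : ℤ)) → ‖V h'‖ ≤ B := by
      intro h' hh'
      refine (hC h').trans (mul_le_mul_of_nonneg_left (pow_le_pow_left₀ (by positivity) ?_ p) hC0)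
      have h1 : ∀ ρ, |(h' ρ : ℝ)| ≤ (|g ρ| * q + 1 + n * K + D) * L := by
        intro ρ
        have h2 : |((h' ρ : ℝ)) - h ρ| ≤ n * (K * L) + D := by
          have h3 : (|h' ρ - h ρ| : ℝ) ≤ ((n * (K * L) + D : ℕ) : ℝ) := by
            exact_mod_cast hh' ρ
          push_cast at h3
          exact h3
        have h3 := hfl ρ
        have h4 : |(h' ρ : ℝ)| ≤ |((h' ρ : ℝ)) - h ρ| + |(h ρ : ℝ) - ((q * L : ℕ) : ℝ) * g ρ|
            + |((q * L : ℕ) : ℝ) * g ρ| := by
          have : (h' ρ : ℝ) = ((h' ρ : ℝ) - h ρ) + (h ρ - ((q * L : ℕ) : ℝ) * g ρ)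
            + ((q * L : ℕ) : ℝ) * g ρ := by ring
          calc |(h' ρ : ℝ)| = |((h' ρ : ℝ) - h ρ) + (h ρ - ((q * L : ℕ) : ℝ) * g ρ)
            + ((q * L : ℕ) : ℝ) * g ρ| := by rw [← this]
            _ ≤ _ := (abs_add_le _ _).trans (add_le_add (abs_add_le _ _) le_rfl)
        have h5 : |((q * L : ℕ) : ℝ) * g ρ| = |g ρ| * q * L := by
          rw [abs_mul, Nat.abs_cast]
          push_cast
          ring
        have h6 : (D : ℝ) ≤ D * L := by
          have : (0 : ℝ) ≤ D := Nat.cast_nonneg _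
          nlinarith
        nlinarith
      calc 1 + ∑ ρ, |(h' ρ : ℝ)| ≤ 1 * L + ∑ ρ, (|g ρ| * q + 1 + n * K + D) * L := by
            refine add_le_add (by linarith) (Finset.sum_le_sum fun ρ _ => h1 ρ)
        _ = Y * L := by rw [← Finset.sum_mul, hY]; ring
    have e2 : ‖dact W (AL L K * G) V h‖ * (L : ℝ) ^ K ≤ G1 * (L : ℝ) ^ (K * n) * B := by
      have h1 : AL L K * G = ∑ α ∈ G.support, (G.coeff α) • (AL L K * monomial α (1 : ℂ)) := by
        conv_lhs => rw [G.as_sum, Finset.mul_sum]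
        refine Finset.sum_congr rfl fun α _ => ?_
        rw [← mul_smul_comm, smul_monomial, smul_eq_mul, mul_one]
      rw [h1, map_sum, LinearMap.sum_apply, Finset.sum_apply]
      refine (mul_le_mul_of_nonneg_right (norm_sum_le _ _) (by positivity)).trans ?_
      rw [Finset.sum_mul, hG1, Finset.sum_mul, Finset.sum_mul]
      refine Finset.sum_le_sum fun α hα => ?_
      rw [map_smul, LinearMap.smul_apply, Pi.smul_apply, smul_eq_mul, norm_mul]
      obtain ⟨N, hN0, hN, hbd⟩ := bd_mono (W := W) L K hL α (hKα α hα)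
      have h2 := hbd V h B hB0 fun h' hh' => hVB h' fun ρ => (hh' ρ).trans (by
        have := hdeg α hα
        have : Fintype.card W * (K * L) + ∑ ρ, α ρ ≤ n * (K * L) + D := by
          rw [← hn]
          omega
        exact_mod_cast this)
      calc ‖G.coeff α‖ * ‖dact W (AL L K * monomial α 1) V h‖ * (L : ℝ) ^ K
          ≤ ‖G.coeff α‖ * (N * B) * (L : ℝ) ^ K := by gcongr
        _ = ‖G.coeff α‖ * (N * (L : ℝ) ^ K) * B := by ring
        _ ≤ ‖G.coeff α‖ * (2 ^ (∑ ρ, α ρ) * (L : ℝ) ^ (K * Fintype.card W)) * B := by gcongr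
        _ = ‖G.coeff α‖ * 2 ^ (∑ ρ, α ρ) * (L : ℝ) ^ (K * n) * B := by rw [← hn]; ring
    rw [e1, norm_mul, norm_pow, Complex.norm_natCast, hB, mul_pow] at e2
    have hpos : (0 : ℝ) < (L : ℝ) ^ (K * n) * (L : ℝ) ^ p := by positivity
    have e3 : (‖c‖ * L) * ((L : ℝ) ^ (K * n) * (L : ℝ) ^ p)
        ≤ (G1 * (C * Y ^ p)) * ((L : ℝ) ^ (K * n) * (L : ℝ) ^ p) := by
      calc (‖c‖ * L) * ((L : ℝ) ^ (K * n) * (L : ℝ) ^ p)
          = (L : ℝ) ^ (K * n) * ‖c‖ * (L : ℝ) ^ K := by rw [hK, pow_succ]; ring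
        _ ≤ _ := e2
        _ = _ := by ring
    exact le_of_mul_le_mul_right e3 hpos
  by_contra hcne
  have hcpos : 0 < ‖c‖ := norm_pos_iff.2 hcne
  obtain ⟨L, hL⟩ := exists_nat_gt (G1 * (C * Y ^ p) / ‖c‖)
  have hq1 : 1 ≤ q := by
    by_contra h
    have : q = 0 := by omega
    rw [this] at hq'
    have : (0 : ℝ) ≤ n * K := by positivity
    simp at hq'
    linarith
  have h1 := main (max L (max 1 M₀)) (by omega) (by
    calc M₀ ≤ max L (max 1 M₀) := by omega
      _ = 1 * max L (max 1 M₀) := (one_mul _).symm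
      _ ≤ q * max L (max 1 M₀) := Nat.mul_le_mul_right _ hq1)
  rw [div_lt_iff₀ hcpos] at hL
  have h2 : (L : ℝ) ≤ ((max L (max 1 M₀) : ℕ) : ℝ) := by exact_mod_cast le_max_left _ _
  nlinarith [mul_le_mul_of_nonneg_left h2 hcpos.le]

end Pool.Agent.Helper30_Simp.H94
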